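import Pool.Agent.X27.Kiss.Up

set_option autoImplicit false

namespace Pool.Agent.X27.Kiss

open Finset

variable {ι : Type*} [Fintype ι] [DecidableEq ι]

/-- The weight of a pair of coordinates. -/
noncomputable def wt (d : ℝ) (x : ι → ℝ) (i j : ι) : ℝ :=
  if |x i| = 1 / 2 ∧ |x j| = 1 / 2 then 1 else if (sp x).card = 3 then d - 2 else 2 * (d - 2)

theorem wt_nonneg {d : ℝ} (hd : 5 ≤ d) (x : ι → ℝ) (i j : ι) : 0 ≤ wt d x i j := by
  unfold wt
  split_ifs <;> linarith

theorem sp_eq {x y : ι → ℝ} (h : (fun i => |x i|) = fun i => |y i|) : sp x = sp y := by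
  ext i
  rw [mem_sp, mem_sp, ← abs_ne_zero, ← abs_ne_zero (a := y i)]
  have : |x i| = |y i| := congrFun h i
  rw [this]

theorem pair_le {X : Finset (ι → ℝ)} (hk : IsKissing X) (hr : ReflInv X)
    (hd : (5 : ℝ) ≤ Fintype.card ι) {i j : ι} (hij : i ≠ j) :
    ∑ x ∈ X.filter (fun x => x i ≠ 0 ∧ x j ≠ 0), wt (Fintype.card ι) x i j ≤
      8 * ((Fintype.card ι : ℝ) - 2) := by
  classical
  set d : ℝ := (Fintype.card ι : ℝ) with hdd
  set T := X.filter (fun x => x i ≠ 0 ∧ x j ≠ 0) with hT
  have hTX : ∀ x ∈ T, x ∈ X ∧ x i ≠ 0 ∧ x j ≠ 0 := fun x hx => by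
    rw [hT, mem_filter] at hx
    exact hx
  by_cases hA : ∃ x₀ ∈ T, ¬ (|x₀ i| = 1 / 2 ∧ |x₀ j| = 1 / 2)
  · obtain ⟨x₀, h0, hn⟩ := hA
    obtain ⟨hX0, hi0, hj0⟩ := hTX x₀ h0
    have a1 := coord hk hr hX0 hi0
    have a2 := coord hk hr hX0 hj0
    have hgt : 1 < |x₀ i| + |x₀ j| := by
      by_contra hle
      push Not at hle
      exact hn ⟨by linarith, by linarith⟩
    have hall : ∀ y ∈ T, (fun i => |y i|) = fun i => |x₀ i| := by
      intro y hy
      by_contra hne
      obtain ⟨hyX, hyi, hyj⟩ := hTX y hy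
      have b1 := coord hk hr hyX hyi
      have b2 := coord hk hr hyX hyj
      have h1 := abs_inner hk hr hX0 hyX (fun h => hne h.symm)
      have h2 : ∑ k ∈ ({i, j} : Finset ι), |x₀ k| * |y k| ≤ ∑ k, |x₀ k| * |y k| :=
        Finset.sum_le_univ_sum_of_nonneg fun k => mul_nonneg (abs_nonneg _) (abs_nonneg _)
      rw [Finset.sum_pair hij] at h2
      nlinarith
    have hs4 : (sp x₀).card ≠ 4 := fun h => hn ⟨four hk hr hX0 h hi0, four hk hr hX0 h hj0⟩
    have hs2 : 2 ≤ (sp x₀).card := by
      rw [← Finset.card_pair hij]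
      refine Finset.card_le_card fun k hk' => ?_
      rw [mem_insert, mem_singleton] at hk'
      rcases hk' with rfl | rfl
      · exact mem_sp.2 hi0
      · exact mem_sp.2 hj0
    have hcard : (T.card : ℝ) ≤ 2 ^ (sp x₀).card := by
      have h1 : T ⊆ X.filter fun y => (fun i => |y i|) = fun i => |x₀ i| := by
        intro y hy
        rw [mem_filter]
        exact ⟨(hTX y hy).1, hall y hy⟩
      exact_mod_cast (Finset.card_le_card h1).trans (fibre X x₀)
    have hw : ∀ y ∈ T, wt d y i j = if (sp x₀).card = 3 then d - 2 else 2 * (d - 2) := by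
      intro y hy
      unfold wt
      have e1 : |y i| = |x₀ i| := congrFun (hall y hy) i
      have e2 : |y j| = |x₀ j| := congrFun (hall y hy) j
      rw [e1, e2, if_neg hn, sp_eq (hall y hy)]
    rw [Finset.sum_congr rfl hw, Finset.sum_const, nsmul_eq_mul]
    have hc4 := (card_sp hk hr hX0).2
    have hc : (sp x₀).card = 3 ∨ (sp x₀).card = 2 := by omega
    rcases hc with hc | hc
    · rw [if_pos hc]
      rw [hc] at hcard
      nlinarith
    · rw [if_neg (by omega)]
      rw [hc] at hcard
      nlinarith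
  · push Not at hA
    have hw : ∀ y ∈ T, wt d y i j = 1 := fun y hy => by
      unfold wt
      rw [if_pos (hA y hy)]
    rw [Finset.sum_congr rfl hw]
    have hc3 : ∀ x ∈ T, (sp x).card = 3 ∨ (sp x).card = 4 := by
      intro x hx
      obtain ⟨hX, hi, hj⟩ := hTX x hx
      have h4 := (card_sp hk hr hX).2
      have h2 : ({i, j} : Finset ι) ⊆ sp x := by
        intro k hk'
        rw [mem_insert, mem_singleton] at hk'
        rcases hk' with rfl | rfl
        · exact mem_sp.2 hi
        · exact mem_sp.2 hj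
      have h3 : ({i, j} : Finset ι) ≠ sp x := by
        intro h
        have h1 := hk.1 x hX
        rw [← sum_sp, ← h, Finset.sum_pair hij, ← sq_abs (x i), ← sq_abs (x j), (hA x hx).1,
          (hA x hx).2] at h1
        norm_num at h1
      have h5 := Finset.card_lt_card (Finset.ssubset_iff_subset_ne.2 ⟨h2, h3⟩)
      rw [Finset.card_pair hij] at h5
      omega
    set E := (univ.erase i).erase j with hE
    have hone : ∀ x ∈ T, (1 : ℝ) = ∑ k ∈ E, if x k ≠ 0 then 1 / (((sp x).card : ℝ) - 2) else 0 := by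
      intro x hx
      obtain ⟨hX, hi, hj⟩ := hTX x hx
      rw [← Finset.sum_filter, Finset.sum_const, nsmul_eq_mul]
      have e : E.filter (fun k => x k ≠ 0) = ((sp x).erase i).erase j := by
        ext k
        simp only [hE, mem_filter, mem_erase, mem_univ, mem_sp]
        tauto
      rw [e, Finset.card_erase_of_mem (mem_erase.2 ⟨hij.symm, mem_sp.2 hj⟩),
        Finset.card_erase_of_mem (mem_sp.2 hi)]
      rcases hc3 x hx with h | h <;> rw [h] <;> norm_num
    rw [Finset.sum_congr rfl hone, Finset.sum_comm]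
    have hEc : (E.card : ℝ) = d - 2 := by
      have h1 : E.card + 2 = Fintype.card ι := by
        have h2 : (univ.erase i).card + 1 = Fintype.card ι := by
          rw [Finset.card_erase_add_one (mem_univ i), Finset.card_univ]
        have h3 : E.card + 1 = (univ.erase i).card :=
          Finset.card_erase_add_one (mem_erase.2 ⟨hij.symm, mem_univ j⟩)
        omega
      rw [hdd, ← h1]
      push_cast
      ring
    have hk8 : ∀ k ∈ E, (∑ x ∈ T, if x k ≠ 0 then 1 / (((sp x).card : ℝ) - 2) else 0) ≤ 8 := by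
      intro k hkE
      rw [← Finset.sum_filter]
      by_cases hne : (T.filter fun x => x k ≠ 0).Nonempty
      · obtain ⟨x₀, h0⟩ := hne
        rw [mem_filter] at h0
        obtain ⟨hX0, hi0, hj0⟩ := hTX x₀ h0.1
        have hki : k ≠ i := (mem_erase.1 (mem_erase.1 hkE).2).1
        have hkj : k ≠ j := (mem_erase.1 hkE).1
        have hall : ∀ y ∈ T.filter (fun x => x k ≠ 0), (fun i => |y i|) = fun i => |x₀ i| := by
          intro y hy
          rw [mem_filter] at hy
          by_contra hne
          obtain ⟨hyX, hyi, hyj⟩ := hTX y hy.1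
          have b3 := coord hk hr hyX hy.2
          have c3 := coord hk hr hX0 h0.2
          have h1 := abs_inner hk hr hX0 hyX (fun h => hne h.symm)
          have h2 : ∑ l ∈ ({i, j, k} : Finset ι), |x₀ l| * |y l| ≤ ∑ l, |x₀ l| * |y l| :=
            Finset.sum_le_univ_sum_of_nonneg fun l => mul_nonneg (abs_nonneg _) (abs_nonneg _)
          rw [Finset.sum_insert (by simp [hij, hki.symm]), Finset.sum_pair hkj.symm,
            (hA _ hy.1).1, (hA _ hy.1).2, (hA _ h0.1).1, (hA _ h0.1).2] at h2
          nlinarith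
        have hcard : ((T.filter fun x => x k ≠ 0).card : ℝ) ≤ 2 ^ (sp x₀).card := by
          have h1 : (T.filter fun x => x k ≠ 0) ⊆
              X.filter fun y => (fun i => |y i|) = fun i => |x₀ i| := by
            intro y hy
            rw [mem_filter]
            exact ⟨(hTX y (mem_filter.1 hy).1).1, hall y hy⟩
          exact_mod_cast (Finset.card_le_card h1).trans (fibre X x₀)
        have hcg : ∀ y ∈ T.filter (fun x => x k ≠ 0), 1 / (((sp y).card : ℝ) - 2) =
            1 / (((sp x₀).card : ℝ) - 2) := fun y hy => by rw [sp_eq (hall y hy)]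
        rw [Finset.sum_congr rfl hcg, Finset.sum_const, nsmul_eq_mul]
        rcases hc3 x₀ h0.1 with h | h
        · rw [h] at hcard ⊢
          norm_num at hcard ⊢
          exact hcard
        · rw [h] at hcard ⊢
          have e1 : ((4 : ℕ) : ℝ) - 2 = 2 := by norm_num
          have e2 : (2 : ℝ) ^ 4 = 16 := by norm_num
          rw [e1]
          rw [e2] at hcard
          linarith
      · rw [Finset.not_nonempty_iff_eq_empty] at hne
        rw [hne, Finset.sum_empty]
        norm_num
    calc _ ≤ ∑ _k ∈ E, (8 : ℝ) := Finset.sum_le_sum hk8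
      _ = 8 * (d - 2) := by rw [Finset.sum_const, nsmul_eq_mul, hEc]; ring

theorem vec_ge {X : Finset (ι → ℝ)} (hk : IsKissing X) (hr : ReflInv X) {d : ℝ} (hd : 5 ≤ d)
    {x : ι → ℝ} (hx : x ∈ X) (h2 : 2 ≤ (sp x).card) :
    12 ≤ ∑ p ∈ (sp x).offDiag, wt d x p.1 p.2 := by
  classical
  have h4 := (card_sp hk hr hx).2
  have hsum := hk.1 x hx
  rw [← sum_sp] at hsum
  have hc : (sp x).card = 4 ∨ (sp x).card = 3 ∨ (sp x).card = 2 := by omega
  rcases hc with hc | hc | hc
  · have hw : ∀ p ∈ (sp x).offDiag, wt d x p.1 p.2 = 1 := by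
      intro p hp
      rw [mem_offDiag, mem_sp, mem_sp] at hp
      unfold wt
      rw [if_pos ⟨four hk hr hx hc hp.1, four hk hr hx hc hp.2.1⟩]
    rw [Finset.sum_congr rfl hw, Finset.sum_const, offDiag_card, hc]
    norm_num
  · obtain ⟨c, hcS, hcn⟩ : ∃ c ∈ sp x, |x c| ≠ 1 / 2 := by
      by_contra hcon
      push Not at hcon
      have : ∀ i ∈ sp x, x i ^ 2 = 1 / 4 := fun i hi => by
        rw [← sq_abs, hcon i hi]
        norm_num
      rw [Finset.sum_congr rfl this, Finset.sum_const, hc] at hsum
      norm_num at hsum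
    have he : ((sp x).erase c).card = 2 := by rw [Finset.card_erase_of_mem hcS, hc]
    obtain ⟨a, b, hab, hS⟩ := Finset.card_eq_two.1 he
    have haS : a ∈ (sp x).erase c := by rw [hS]; simp
    have hbS : b ∈ (sp x).erase c := by rw [hS]; simp
    rw [mem_erase] at haS hbS
    have hsub : ({(c, a), (c, b), (a, c), (b, c)} : Finset (ι × ι)) ⊆ (sp x).offDiag := by
      intro p hp
      simp only [mem_insert, mem_singleton] at hp
      rw [mem_offDiag]
      rcases hp with rfl | rfl | rfl | rfl
      · exact ⟨hcS, haS.2, haS.1.symm⟩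
      · exact ⟨hcS, hbS.2, hbS.1.symm⟩
      · exact ⟨haS.2, hcS, haS.1⟩
      · exact ⟨hbS.2, hcS, hbS.1⟩
    have h1 := Finset.sum_le_sum_of_subset_of_nonneg hsub
      (f := fun p : ι × ι => wt d x p.1 p.2) (fun p _ _ => wt_nonneg hd x _ _)
    have hac := haS.1
    have hbc := hbS.1
    rw [Finset.sum_insert (by simp [hab, hac.symm, hbc.symm]), Finset.sum_insert (by simp [hac.symm, hbc.symm]),
      Finset.sum_pair (by simp [hab])] at h1
    have w1 : ∀ k, wt d x c k = d - 2 := fun k => by
      unfold wt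
      rw [if_neg (fun h => hcn h.1), if_pos hc]
    have w2 : ∀ k, wt d x k c = d - 2 := fun k => by
      unfold wt
      rw [if_neg (fun h => hcn h.2), if_pos hc]
    simp only [w1, w2] at h1
    linarith
  · obtain ⟨a, b, hab, hS⟩ := Finset.card_eq_two.1 hc
    have haS : a ∈ sp x := by rw [hS]; simp
    have hbS : b ∈ sp x := by rw [hS]; simp
    have hsub : ({(a, b), (b, a)} : Finset (ι × ι)) ⊆ (sp x).offDiag := by
      intro p hp
      simp only [mem_insert, mem_singleton] at hp
      rw [mem_offDiag]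
      rcases hp with rfl | rfl
      · exact ⟨haS, hbS, hab⟩
      · exact ⟨hbS, haS, hab.symm⟩
    have h1 := Finset.sum_le_sum_of_subset_of_nonneg hsub
      (f := fun p : ι × ι => wt d x p.1 p.2) (fun p _ _ => wt_nonneg hd x _ _)
    rw [Finset.sum_pair (by simp [hab])] at h1
    have hnot : ¬ (|x a| = 1 / 2 ∧ |x b| = 1 / 2) := by
      rintro ⟨ha, hb⟩
      rw [hS, Finset.sum_pair hab, ← sq_abs (x a), ← sq_abs (x b), ha, hb] at hsum
      norm_num at hsum
    have w1 : wt d x a b = 2 * (d - 2) := by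
      unfold wt
      rw [if_neg hnot, if_neg (by omega)]
    have w2 : wt d x b a = 2 * (d - 2) := by
      unfold wt
      rw [if_neg (fun h => hnot ⟨h.2, h.1⟩), if_neg (by omega)]
    simp only [w1, w2] at h1
    linarith

theorem ones (X : Finset (ι → ℝ)) (hk : IsKissing X) :
    (X.filter fun x => (sp x).card = 1).card ≤ 2 * Fintype.card ι := by
  classical
  have hsub : (X.filter fun x => (sp x).card = 1) ⊆
      (univ : Finset (ι × Bool)).image (fun p => Pi.single p.1 (if p.2 then (1 : ℝ) else -1)) := by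
    intro x hx
    rw [mem_filter] at hx
    obtain ⟨i, hi⟩ := Finset.card_eq_one.1 hx.2
    have h1 := hk.1 x hx.1
    rw [← sum_sp, hi, Finset.sum_singleton] at h1
    have hxe : x = Pi.single i (x i) := by
      funext k
      by_cases hk' : k = i
      · subst hk'
        rw [Pi.single_eq_same]
      · rw [Pi.single_eq_of_ne hk']
        have : k ∉ sp x := by rw [hi, mem_singleton]; exact hk'
        rw [mem_sp, not_not] at this
        exact this
    rw [mem_image]
    rcases mul_self_eq_one_iff.1 ((sq (x i)).symm.trans h1) with h | h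
    · refine ⟨(i, true), mem_univ _, ?_⟩
      rw [hxe, h]
      simp
    · refine ⟨(i, false), mem_univ _, ?_⟩
      rw [hxe, h]
      simp
  calc _ ≤ _ := Finset.card_le_card hsub
    _ ≤ (univ : Finset (ι × Bool)).card := Finset.card_image_le
    _ = 2 * Fintype.card ι := by simp [Fintype.card_prod, mul_comm]

theorem upper {X : Finset (ι → ℝ)} (hk : IsKissing X) (hr : ReflInv X) (hd : 5 ≤ Fintype.card ι) :
    3 * (X.card : ℝ) ≤ 6 * Fintype.card ι +
      2 * (Fintype.card ι : ℝ) * ((Fintype.card ι : ℝ) - 1) * ((Fintype.card ι : ℝ) - 2) := by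
  classical
  have hd' : (5 : ℝ) ≤ Fintype.card ι := by exact_mod_cast hd
  set d : ℝ := (Fintype.card ι : ℝ) with hdd
  have hsplit : X.card = (X.filter fun x => (sp x).card = 1).card +
      (X.filter fun x => ¬ (sp x).card = 1).card :=
    (Finset.card_filter_add_card_filter_not _).symm
  have h1 : ((X.filter fun x => (sp x).card = 1).card : ℝ) ≤ 2 * d := by
    rw [hdd]
    exact_mod_cast ones X hk
  have h2 : 12 * ((X.filter fun x => ¬ (sp x).card = 1).card : ℝ) ≤ d * (d - 1) * (8 * (d - 2)) := by
    calc 12 * ((X.filter fun x => ¬ (sp x).card = 1).card : ℝ)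
        = ∑ _x ∈ X.filter (fun x => ¬ (sp x).card = 1), (12 : ℝ) := by
          rw [Finset.sum_const, nsmul_eq_mul, mul_comm]
      _ ≤ ∑ x ∈ X.filter (fun x => ¬ (sp x).card = 1), ∑ p ∈ (sp x).offDiag, wt d x p.1 p.2 := by
          refine Finset.sum_le_sum fun x hx => ?_
          rw [mem_filter] at hx
          have := (card_sp hk hr hx.1).1
          exact vec_ge hk hr hd' hx.1 (by omega)
      _ ≤ ∑ x ∈ X, ∑ p ∈ (sp x).offDiag, wt d x p.1 p.2 :=
          Finset.sum_le_sum_of_subset_of_nonneg (Finset.filter_subset _ _)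
            fun x _ _ => Finset.sum_nonneg fun p _ => wt_nonneg hd' _ _ _
      _ = ∑ x ∈ X, ∑ p ∈ (univ : Finset ι).offDiag,
            if x p.1 ≠ 0 ∧ x p.2 ≠ 0 then wt d x p.1 p.2 else 0 := by
          refine Finset.sum_congr rfl fun x _ => ?_
          rw [← Finset.sum_filter]
          refine Finset.sum_congr ?_ fun _ _ => rfl
          ext p
          simp only [mem_offDiag, mem_filter, mem_univ, true_and, mem_sp]
          tauto
      _ = ∑ p ∈ (univ : Finset ι).offDiag, ∑ x ∈ X.filter (fun x => x p.1 ≠ 0 ∧ x p.2 ≠ 0),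
            wt d x p.1 p.2 := by
          rw [Finset.sum_comm]
          refine Finset.sum_congr rfl fun p _ => ?_
          rw [Finset.sum_filter]
      _ ≤ ∑ _p ∈ (univ : Finset ι).offDiag, 8 * (d - 2) := by
          refine Finset.sum_le_sum fun p hp => ?_
          rw [mem_offDiag] at hp
          exact pair_le hk hr hd' hp.2.2
      _ = d * (d - 1) * (8 * (d - 2)) := by
          rw [Finset.sum_const, nsmul_eq_mul, offDiag_card, Finset.card_univ]
          have : Fintype.card ι ≤ Fintype.card ι * Fintype.card ι := Nat.le_mul_self _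
          rw [Nat.cast_sub this]
          push_cast
          rw [← hdd]
          ring
  rw [hsplit]
  push_cast
  nlinarith

end Pool.Agent.X27.Kiss
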