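import Pool.Agent.X27.Kiss.Low

set_option autoImplicit false

namespace Pool.Agent.X27.Kiss

open Finset

variable {ι : Type*} [Fintype ι] [DecidableEq ι]

theorem vec_alt {X : Finset (ι → ℝ)} (hk : IsKissing X) (hr : ReflInv X) {d : ℝ} (hd : 5 ≤ d)
    {x : ι → ℝ} (hx : x ∈ X) (h2 : 2 ≤ (sp x).card) (h4 : (sp x).card ≠ 4) :
    4 * (d - 2) ≤ ∑ p ∈ (sp x).offDiag, wt d x p.1 p.2 := by
  classical
  have h5 := (card_sp hk hr hx).2
  have hsum := hk.1 x hx
  rw [← sum_sp] at hsum
  have hc : (sp x).card = 3 ∨ (sp x).card = 2 := by omega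
  rcases hc with hc | hc
  · obtain ⟨c, hcS, hcn⟩ : ∃ c ∈ sp x, |x c| ≠ 1 / 2 := by
      by_contra hcon
      push Not at hcon
      have : ∀ i ∈ sp x, x i ^ 2 = 1 / 4 := fun i hi => by
        rw [← sq_abs, hcon i hi]
        norm_num
      rw [Finset.sum_congr rfl this, Finset.sum_const, hc] at hsum
      norm_num at hsum
    have he : ((sp x).erase c).card = 2 := by rw [Finset.card_erase_of_mem hcS, hc]
    obtain ⟨a, b, hab, hS⟩ := Finset.card_eq_two.1 he
    have haS : a ∈ (sp x).erase c := by rw [hS]; simp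
    have hbS : b ∈ (sp x).erase c := by rw [hS]; simp
    rw [mem_erase] at haS hbS
    have hsub : ({(c, a), (c, b), (a, c), (b, c)} : Finset (ι × ι)) ⊆ (sp x).offDiag := by
      intro p hp
      simp only [mem_insert, mem_singleton] at hp
      rw [mem_offDiag]
      rcases hp with rfl | rfl | rfl | rfl
      · exact ⟨hcS, haS.2, haS.1.symm⟩
      · exact ⟨hcS, hbS.2, hbS.1.symm⟩
      · exact ⟨haS.2, hcS, haS.1⟩
      · exact ⟨hbS.2, hcS, hbS.1⟩
    have h1 := Finset.sum_le_sum_of_subset_of_nonneg hsub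
      (f := fun p : ι × ι => wt d x p.1 p.2) (fun p _ _ => wt_nonneg hd x _ _)
    have hac := haS.1
    have hbc := hbS.1
    rw [Finset.sum_insert (by simp [hab, hac.symm, hbc.symm]), Finset.sum_insert (by simp [hac.symm, hbc.symm]),
      Finset.sum_pair (by simp [hab])] at h1
    have w1 : ∀ k, wt d x c k = d - 2 := fun k => by
      unfold wt
      rw [if_neg (fun h => hcn h.1), if_pos hc]
    have w2 : ∀ k, wt d x k c = d - 2 := fun k => by
      unfold wt
      rw [if_neg (fun h => hcn h.2), if_pos hc]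
    simp only [w1, w2] at h1
    linarith
  · obtain ⟨a, b, hab, hS⟩ := Finset.card_eq_two.1 hc
    have haS : a ∈ sp x := by rw [hS]; simp
    have hbS : b ∈ sp x := by rw [hS]; simp
    have hsub : ({(a, b), (b, a)} : Finset (ι × ι)) ⊆ (sp x).offDiag := by
      intro p hp
      simp only [mem_insert, mem_singleton] at hp
      rw [mem_offDiag]
      rcases hp with rfl | rfl
      · exact ⟨haS, hbS, hab⟩
      · exact ⟨hbS, haS, hab.symm⟩
    have h1 := Finset.sum_le_sum_of_subset_of_nonneg hsub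
      (f := fun p : ι × ι => wt d x p.1 p.2) (fun p _ _ => wt_nonneg hd x _ _)
    rw [Finset.sum_pair (by simp [hab])] at h1
    have hnot : ¬ (|x a| = 1 / 2 ∧ |x b| = 1 / 2) := by
      rintro ⟨ha, hb⟩
      rw [hS, Finset.sum_pair hab, ← sq_abs (x a), ← sq_abs (x b), ha, hb] at hsum
      norm_num at hsum
    have w1 : wt d x a b = 2 * (d - 2) := by
      unfold wt
      rw [if_neg hnot, if_neg (by omega)]
    have w2 : wt d x b a = 2 * (d - 2) := by
      unfold wt
      rw [if_neg (fun h => hnot ⟨h.2, h.1⟩), if_neg (by omega)]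
    simp only [w1, w2] at h1
    linarith

/-- If all vectors which are not multiples of unit vectors have four entries, a missing triple
improves the bound for a pair. -/
theorem pair_strict {X : Finset (ι → ℝ)} (hk : IsKissing X) (hr : ReflInv X)
    (h4 : ∀ x ∈ X, (sp x).card ≠ 1 → (sp x).card = 4) {i j k : ι} (hij : i ≠ j) (hki : k ≠ i)
    (hkj : k ≠ j) (hno : ∀ x ∈ X, x i ≠ 0 → x j ≠ 0 → x k = 0) :
    ∑ x ∈ X.filter (fun x => x i ≠ 0 ∧ x j ≠ 0), wt (Fintype.card ι) x i j ≤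
      8 * ((Fintype.card ι : ℝ) - 3) := by
  classical
  set d : ℝ := (Fintype.card ι : ℝ) with hdd
  set T := X.filter (fun x => x i ≠ 0 ∧ x j ≠ 0) with hT
  have hTX : ∀ x ∈ T, x ∈ X ∧ x i ≠ 0 ∧ x j ≠ 0 := fun x hx => by
    rw [hT, mem_filter] at hx
    exact hx
  have hc4 : ∀ x ∈ T, (sp x).card = 4 := by
    intro x hx
    obtain ⟨hX, hi, hj⟩ := hTX x hx
    refine h4 x hX fun h1 => ?_
    obtain ⟨a, ha⟩ := Finset.card_eq_one.1 h1
    have e1 : i ∈ sp x := mem_sp.2 hi
    have e2 : j ∈ sp x := mem_sp.2 hj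
    rw [ha, mem_singleton] at e1 e2
    exact hij (e1.trans e2.symm)
  have hA : ∀ x ∈ T, |x i| = 1 / 2 ∧ |x j| = 1 / 2 := fun x hx =>
    ⟨four hk hr (hTX x hx).1 (hc4 x hx) (hTX x hx).2.1, four hk hr (hTX x hx).1 (hc4 x hx) (hTX x hx).2.2⟩
  have hw : ∀ y ∈ T, wt d y i j = 1 := fun y hy => by
    unfold wt
    rw [if_pos (hA y hy)]
  rw [Finset.sum_congr rfl hw]
  set E := ((univ.erase i).erase j).erase k with hE
  have hone : ∀ x ∈ T, (1 : ℝ) = ∑ l ∈ E, if x l ≠ 0 then (1 / 2 : ℝ) else 0 := by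
    intro x hx
    obtain ⟨hX, hi, hj⟩ := hTX x hx
    rw [← Finset.sum_filter, Finset.sum_const, nsmul_eq_mul]
    have e : E.filter (fun l => x l ≠ 0) = ((sp x).erase i).erase j := by
      ext l
      simp only [hE, mem_filter, mem_erase, mem_univ, mem_sp]
      constructor
      · tauto
      · rintro ⟨h1, h2, h3⟩
        exact ⟨⟨fun h => h3 (by rw [h]; exact hno x hX hi hj), h1, h2, trivial⟩, h3⟩
    rw [e, Finset.card_erase_of_mem (mem_erase.2 ⟨hij.symm, mem_sp.2 hj⟩),
      Finset.card_erase_of_mem (mem_sp.2 hi), hc4 x hx]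
    norm_num
  rw [Finset.sum_congr rfl hone, Finset.sum_comm]
  have hEc : (E.card : ℝ) = d - 3 := by
    have h1 : E.card + 3 = Fintype.card ι := by
      have h2 : (univ.erase i).card + 1 = Fintype.card ι := by
        rw [Finset.card_erase_add_one (mem_univ i), Finset.card_univ]
      have h3 : ((univ.erase i).erase j).card + 1 = (univ.erase i).card :=
        Finset.card_erase_add_one (mem_erase.2 ⟨hij.symm, mem_univ j⟩)
      have h5 : E.card + 1 = ((univ.erase i).erase j).card :=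
        Finset.card_erase_add_one (mem_erase.2 ⟨hkj, mem_erase.2 ⟨hki, mem_univ k⟩⟩)
      omega
    rw [hdd, ← h1]
    push_cast
    ring
  have hk8 : ∀ l ∈ E, (∑ x ∈ T, if x l ≠ 0 then (1 / 2 : ℝ) else 0) ≤ 8 := by
    intro l hlE
    rw [← Finset.sum_filter]
    by_cases hne : (T.filter fun x => x l ≠ 0).Nonempty
    · obtain ⟨x₀, h0⟩ := hne
      rw [mem_filter] at h0
      obtain ⟨hX0, hi0, hj0⟩ := hTX x₀ h0.1
      have hlj : l ≠ j := (mem_erase.1 (mem_erase.1 hlE).2).1
      have hli : l ≠ i := (mem_erase.1 (mem_erase.1 (mem_erase.1 hlE).2).2).1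
      have hall : ∀ y ∈ T.filter (fun x => x l ≠ 0), (fun i => |y i|) = fun i => |x₀ i| := by
        intro y hy
        rw [mem_filter] at hy
        by_contra hne
        obtain ⟨hyX, hyi, hyj⟩ := hTX y hy.1
        have b3 := coord hk hr hyX hy.2
        have c3 := coord hk hr hX0 h0.2
        have h1 := abs_inner hk hr hX0 hyX (fun h => hne h.symm)
        have h2 : ∑ m ∈ ({i, j, l} : Finset ι), |x₀ m| * |y m| ≤ ∑ m, |x₀ m| * |y m| :=
          Finset.sum_le_univ_sum_of_nonneg fun m => mul_nonneg (abs_nonneg _) (abs_nonneg _)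
        rw [Finset.sum_insert (by simp [hij, hli.symm]), Finset.sum_pair hlj.symm,
          (hA _ hy.1).1, (hA _ hy.1).2, (hA _ h0.1).1, (hA _ h0.1).2] at h2
        nlinarith
      have hcard : ((T.filter fun x => x l ≠ 0).card : ℝ) ≤ 2 ^ (sp x₀).card := by
        have h1 : (T.filter fun x => x l ≠ 0) ⊆
            X.filter fun y => (fun i => |y i|) = fun i => |x₀ i| := by
          intro y hy
          rw [mem_filter]
          exact ⟨(hTX y (mem_filter.1 hy).1).1, hall y hy⟩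
        exact_mod_cast (Finset.card_le_card h1).trans (fibre X x₀)
      rw [Finset.sum_const, nsmul_eq_mul]
      rw [hc4 x₀ h0.1] at hcard
      have e2 : (2 : ℝ) ^ 4 = 16 := by norm_num
      rw [e2] at hcard
      linarith
    · rw [Finset.not_nonempty_iff_eq_empty] at hne
      rw [hne, Finset.sum_empty]
      norm_num
  calc _ ≤ ∑ _l ∈ E, (8 : ℝ) := Finset.sum_le_sum hk8
    _ = 8 * (d - 3) := by rw [Finset.sum_const, nsmul_eq_mul, hEc]; ring

theorem sqs_of_eq {X : Finset (ι → ℝ)} (hk : IsKissing X) (hr : ReflInv X)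
    (hd : 6 ≤ Fintype.card ι)
    (heq : 3 * (X.card : ℝ) = 6 * Fintype.card ι +
      2 * (Fintype.card ι : ℝ) * ((Fintype.card ι : ℝ) - 1) * ((Fintype.card ι : ℝ) - 2)) :
    ∃ Q : Finset (Finset ι), SQS Q := by
  classical
  have hd6 : (6 : ℝ) ≤ Fintype.card ι := by exact_mod_cast hd
  have hd' : (5 : ℝ) ≤ Fintype.card ι := by linarith
  set d : ℝ := (Fintype.card ι : ℝ) with hdd
  set X2 := X.filter (fun x => ¬ (sp x).card = 1) with hX2
  have hsplit : X.card = (X.filter fun x => (sp x).card = 1).card + X2.card :=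
    (Finset.card_filter_add_card_filter_not _).symm
  have h1 : ((X.filter fun x => (sp x).card = 1).card : ℝ) ≤ 2 * d := by
    rw [hdd]
    exact_mod_cast ones X hk
  have hlow : d * (d - 1) * (8 * (d - 2)) ≤ 12 * (X2.card : ℝ) := by
    rw [hsplit] at heq
    push_cast at heq
    nlinarith
  have hge2 : ∀ x ∈ X2, x ∈ X ∧ 2 ≤ (sp x).card := by
    intro x hx
    rw [hX2, mem_filter] at hx
    have := (card_sp hk hr hx.1).1
    exact ⟨hx.1, by omega⟩
  set G : ι × ι → ℝ := fun p => ∑ x ∈ X.filter (fun x => x p.1 ≠ 0 ∧ x p.2 ≠ 0), wt d x p.1 p.2 with hG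
  have hF : ∑ x ∈ X2, ∑ p ∈ (sp x).offDiag, wt d x p.1 p.2 ≤ ∑ p ∈ (univ : Finset ι).offDiag, G p := by
    calc _ ≤ ∑ x ∈ X, ∑ p ∈ (sp x).offDiag, wt d x p.1 p.2 :=
          Finset.sum_le_sum_of_subset_of_nonneg (Finset.filter_subset _ _)
            fun x _ _ => Finset.sum_nonneg fun p _ => wt_nonneg hd' _ _ _
      _ = ∑ x ∈ X, ∑ p ∈ (univ : Finset ι).offDiag,
            if x p.1 ≠ 0 ∧ x p.2 ≠ 0 then wt d x p.1 p.2 else 0 := by
          refine Finset.sum_congr rfl fun x _ => ?_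
          rw [← Finset.sum_filter]
          refine Finset.sum_congr ?_ fun _ _ => rfl
          ext p
          simp only [mem_offDiag, mem_filter, mem_univ, true_and, mem_sp]
          tauto
      _ = _ := by
          rw [Finset.sum_comm]
          refine Finset.sum_congr rfl fun p _ => ?_
          simp only [hG, Finset.sum_filter]
  have hcardoff : (((univ : Finset ι).offDiag.card : ℕ) : ℝ) = d * (d - 1) := by
    rw [offDiag_card, Finset.card_univ]
    have : Fintype.card ι ≤ Fintype.card ι * Fintype.card ι := Nat.le_mul_self _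
    rw [Nat.cast_sub this]
    push_cast
    rw [← hdd]
    ring
  have hGle : ∀ p ∈ (univ : Finset ι).offDiag, G p ≤ 8 * (d - 2) := by
    intro p hp
    rw [mem_offDiag] at hp
    exact pair_le hk hr hd' hp.2.2
  have hGsum : ∑ p ∈ (univ : Finset ι).offDiag, G p ≤ d * (d - 1) * (8 * (d - 2)) := by
    calc _ ≤ ∑ _p ∈ (univ : Finset ι).offDiag, 8 * (d - 2) := Finset.sum_le_sum hGle
      _ = _ := by rw [Finset.sum_const, nsmul_eq_mul, hcardoff]
  have hFge : ∀ x ∈ X2, 12 ≤ ∑ p ∈ (sp x).offDiag, wt d x p.1 p.2 := fun x hx =>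
    vec_ge hk hr hd' (hge2 x hx).1 (hge2 x hx).2
  -- all supports have four elements
  have h4 : ∀ x ∈ X, (sp x).card ≠ 1 → (sp x).card = 4 := by
    intro x hx hx1
    by_contra hne
    have hxX2 : x ∈ X2 := by rw [hX2, mem_filter]; exact ⟨hx, hx1⟩
    have hbig := vec_alt hk hr hd' hx (hge2 x hxX2).2 hne
    have hlt : ∑ _x ∈ X2, (12 : ℝ) < ∑ x ∈ X2, ∑ p ∈ (sp x).offDiag, wt d x p.1 p.2 :=
      Finset.sum_lt_sum hFge ⟨x, hxX2, by linarith⟩
    rw [Finset.sum_const, nsmul_eq_mul] at hlt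
    linarith
  -- every triple is in the support of some vector
  have htriple : ∀ i j k : ι, i ≠ j → k ≠ i → k ≠ j → ∃ x ∈ X, x i ≠ 0 ∧ x j ≠ 0 ∧ x k ≠ 0 := by
    intro i j k hij hki hkj
    by_contra hcon
    push Not at hcon
    have hs := pair_strict hk hr h4 hij hki hkj hcon
    have hlt : ∑ p ∈ (univ : Finset ι).offDiag, G p < ∑ _p ∈ (univ : Finset ι).offDiag, 8 * (d - 2) := by
      refine Finset.sum_lt_sum hGle ⟨(i, j), ?_, ?_⟩
      · rw [mem_offDiag]
        exact ⟨mem_univ _, mem_univ _, hij⟩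
      · have : G (i, j) ≤ 8 * (d - 3) := hs
        linarith
    rw [Finset.sum_const, nsmul_eq_mul, hcardoff] at hlt
    have hsum12 : ∑ _x ∈ X2, (12 : ℝ) ≤ ∑ x ∈ X2, ∑ p ∈ (sp x).offDiag, wt d x p.1 p.2 :=
      Finset.sum_le_sum hFge
    rw [Finset.sum_const, nsmul_eq_mul] at hsum12
    linarith
  refine ⟨X2.image sp, ?_, ?_⟩
  · intro q hq
    obtain ⟨x, hx, rfl⟩ := mem_image.1 hq
    rw [hX2, mem_filter] at hx
    exact h4 x hx.1 hx.2
  · intro t ht
    obtain ⟨i, j, k, hij, hik, hjk, rfl⟩ := Finset.card_eq_three.1 ht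
    obtain ⟨x, hx, hxi, hxj, hxk⟩ := htriple i j k hij hik.symm hjk.symm
    have hsubset : ∀ y : ι → ℝ, ({i, j, k} : Finset ι) ⊆ sp y → y i ≠ 0 ∧ y j ≠ 0 ∧ y k ≠ 0 := by
      intro y hy
      exact ⟨mem_sp.1 (hy (by simp)), mem_sp.1 (hy (by simp)), mem_sp.1 (hy (by simp))⟩
    refine ⟨sp x, ⟨mem_image.2 ⟨x, ?_, rfl⟩, ?_⟩, ?_⟩
    · rw [hX2, mem_filter]
      refine ⟨hx, fun h1 => ?_⟩
      obtain ⟨a, ha⟩ := Finset.card_eq_one.1 h1
      have e1 : i ∈ sp x := mem_sp.2 hxi
      have e2 : j ∈ sp x := mem_sp.2 hxj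
      rw [ha, mem_singleton] at e1 e2
      exact hij (e1.trans e2.symm)
    · intro l hl
      simp only [mem_insert, mem_singleton] at hl
      rcases hl with rfl | rfl | rfl
      · exact mem_sp.2 hxi
      · exact mem_sp.2 hxj
      · exact mem_sp.2 hxk
    · rintro q ⟨hq, hsub⟩
      obtain ⟨y, hy, rfl⟩ := mem_image.1 hq
      rw [hX2, mem_filter] at hy
      obtain ⟨hyi, hyj, hyk⟩ := hsubset y hsub
      by_contra hne
      have hne' : (fun i => |x i|) ≠ fun i => |y i| := fun h => hne (sp_eq h).symm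
      have h1 := abs_inner hk hr hx hy.1 hne'
      have h2 : ∑ m ∈ ({i, j, k} : Finset ι), |x m| * |y m| ≤ ∑ m, |x m| * |y m| :=
        Finset.sum_le_univ_sum_of_nonneg fun m => mul_nonneg (abs_nonneg _) (abs_nonneg _)
      rw [Finset.sum_insert (by simp [hij, hik]), Finset.sum_pair hjk] at h2
      have b1 := coord hk hr hx hxi
      have b2 := coord hk hr hx hxj
      have b3 := coord hk hr hx hxk
      have c1 := coord hk hr hy.1 hyi
      have c2 := coord hk hr hy.1 hyj
      have c3 := coord hk hr hy.1 hyk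
      nlinarith

end Pool.Agent.X27.Kiss
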