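import Pool.Agent.X27.Kiss.Bound

set_option autoImplicit false

namespace Pool.Agent.X27.Kiss

open Finset

variable {ι : Type*} [Fintype ι] [DecidableEq ι]

/-- A Steiner quadruple system: 4-element sets such that every 3-element set is in exactly one. -/
def SQS (Q : Finset (Finset ι)) : Prop :=
  (∀ q ∈ Q, q.card = 4) ∧ ∀ t : Finset ι, t.card = 3 → ∃! q, q ∈ Q ∧ t ⊆ q

/-- The vector with entries `-1/2` on `S`, `1/2` on the rest of `q`, and `0` elsewhere. -/
noncomputable def vec (q S : Finset ι) : ι → ℝ :=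
  fun i => if i ∈ S then -(1 / 2) else if i ∈ q then 1 / 2 else 0

theorem abs_vec {q S : Finset ι} (h : S ⊆ q) (i : ι) : |vec q S i| = if i ∈ q then 1 / 2 else 0 := by
  unfold vec
  by_cases h1 : i ∈ S
  · rw [if_pos h1, if_pos (h h1)]
    norm_num
  · rw [if_neg h1]
    by_cases h2 : i ∈ q
    · rw [if_pos h2]
      norm_num
    · rw [if_neg h2]
      norm_num

/-- The configuration of a quadruple system. -/
noncomputable def ax : Finset (ι → ℝ) :=
  (univ : Finset (ι × Bool)).image (fun p => Pi.single p.1 (if p.2 then (1 : ℝ) else -1))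

noncomputable def quad (Q : Finset (Finset ι)) : Finset (ι → ℝ) :=
  Q.biUnion fun q => q.powerset.image (vec q)

theorem mem_quad {Q : Finset (Finset ι)} {x : ι → ℝ} :
    x ∈ quad Q ↔ ∃ q ∈ Q, ∃ S ⊆ q, vec q S = x := by
  simp only [quad, mem_biUnion, mem_image, mem_powerset]

theorem mem_ax {x : ι → ℝ} : x ∈ ax ↔ ∃ (i : ι) (b : Bool), Pi.single i (if b then (1 : ℝ) else -1) = x := by
  simp only [ax, mem_image, mem_univ, true_and, Prod.exists]

theorem sum_single (i : ι) (a : ℝ) (y : ι → ℝ) : ∑ k, (Pi.single i a : ι → ℝ) k * y k = a * y i := by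
  rw [Finset.sum_eq_single i]
  · rw [Pi.single_eq_same]
  · intro k _ hk
    rw [Pi.single_eq_of_ne hk, zero_mul]
  · intro h
    exact absurd (mem_univ _) h

theorem inter_le {Q : Finset (Finset ι)} (hQ : SQS Q) {q q' : Finset ι} (hq : q ∈ Q) (hq' : q' ∈ Q)
    (hne : q ≠ q') : (q ∩ q').card ≤ 2 := by
  by_contra hcon
  push Not at hcon
  obtain ⟨t, ht, htc⟩ := Finset.exists_subset_card_eq (show 3 ≤ (q ∩ q').card by omega)
  obtain ⟨p, _, hp⟩ := hQ.2 t htc
  exact hne ((hp q ⟨hq, ht.trans inter_subset_left⟩).trans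
    (hp q' ⟨hq', ht.trans inter_subset_right⟩).symm)

theorem unit_vec {q S : Finset ι} (hq : q.card = 4) (hS : S ⊆ q) : ∑ i, vec q S i ^ 2 = 1 := by
  have : ∀ i, vec q S i ^ 2 = if i ∈ q then 1 / 4 else 0 := by
    intro i
    rw [← sq_abs, abs_vec hS]
    split_ifs <;> norm_num
  rw [Finset.sum_congr rfl fun i _ => this i, Finset.sum_ite_mem, univ_inter, Finset.sum_const, hq]
  norm_num

theorem sep_quad {Q : Finset (Finset ι)} (hQ : SQS Q) {x y : ι → ℝ} (hx : x ∈ quad Q)
    (hy : y ∈ quad Q) (hne : x ≠ y) : ∑ i, x i * y i ≤ 1 / 2 := by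
  obtain ⟨q, hq, S, hS, rfl⟩ := mem_quad.1 hx
  obtain ⟨q', hq', S', hS', rfl⟩ := mem_quad.1 hy
  by_cases hqq : q = q'
  · subst hqq
    have hSS : S ≠ S' := fun h => hne (by rw [h])
    obtain ⟨i, hi⟩ : ∃ i, ¬ (i ∈ S ↔ i ∈ S') := by
      by_contra hcon
      push Not at hcon
      exact hSS (Finset.ext hcon)
    have hiq : i ∈ q := by
      by_contra h
      exact hi ⟨fun h1 => absurd (hS h1) h, fun h1 => absurd (hS' h1) h⟩
    have h0 : vec q S i * vec q S' i = -(1 / 4) := by
      unfold vec
      by_cases h1 : i ∈ S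
      · have h2 : i ∉ S' := fun h2 => hi ⟨fun _ => h2, fun _ => h1⟩
        rw [if_pos h1, if_neg h2, if_pos hiq]
        norm_num
      · have h2 : i ∈ S' := by
          by_contra h2
          exact hi ⟨fun h => absurd h h1, fun h => absurd h h2⟩
        rw [if_neg h1, if_pos h2, if_pos hiq]
        norm_num
    rw [← Finset.add_sum_erase univ _ (mem_univ i), h0]
    have h3 : ∑ k ∈ univ.erase i, vec q S k * vec q S' k ≤
        ∑ k ∈ univ.erase i, if k ∈ q then (1 / 4 : ℝ) else 0 := by
      refine Finset.sum_le_sum fun k _ => ?_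
      refine (le_abs_self _).trans ?_
      rw [abs_mul, abs_vec hS, abs_vec hS']
      split_ifs <;> norm_num
    have h4 : ∑ k ∈ univ.erase i, (if k ∈ q then (1 / 4 : ℝ) else 0) = 3 / 4 := by
      have h5 : ∑ k, (if k ∈ q then (1 / 4 : ℝ) else 0) = 1 := by
        rw [Finset.sum_ite_mem, univ_inter, Finset.sum_const, hQ.1 q hq]
        norm_num
      rw [← Finset.add_sum_erase univ _ (mem_univ i), if_pos hiq] at h5
      linarith
    linarith
  · have h3 : ∑ k, vec q S k * vec q' S' k ≤ ∑ k, if k ∈ q ∩ q' then (1 / 4 : ℝ) else 0 := by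
      refine Finset.sum_le_sum fun k _ => ?_
      refine (le_abs_self _).trans ?_
      rw [abs_mul, abs_vec hS, abs_vec hS']
      simp only [mem_inter]
      by_cases h1 : k ∈ q <;> by_cases h2 : k ∈ q' <;> simp [h1, h2] <;> norm_num
    rw [Finset.sum_ite_mem, univ_inter, Finset.sum_const, nsmul_eq_mul] at h3
    have h4 : ((q ∩ q').card : ℝ) ≤ 2 := by exact_mod_cast inter_le hQ hq hq' hqq
    linarith

theorem abs_quad_le {Q : Finset (Finset ι)} {x : ι → ℝ} (hx : x ∈ quad Q) (i : ι) : |x i| ≤ 1 / 2 := by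
  obtain ⟨q, _, S, hS, rfl⟩ := mem_quad.1 hx
  rw [abs_vec hS]
  split_ifs <;> norm_num

theorem kissing {Q : Finset (Finset ι)} (hQ : SQS Q) : IsKissing (ax ∪ quad Q : Finset (ι → ℝ)) := by
  have hb : ∀ b : Bool, |(if b then (1 : ℝ) else -1)| = 1 := by
    intro b
    cases b <;> simp
  have mixed : ∀ x ∈ (ax : Finset (ι → ℝ)), ∀ y ∈ quad Q, ∑ i, x i * y i ≤ 1 / 2 := by
    intro x hx y hy
    obtain ⟨i, b, rfl⟩ := mem_ax.1 hx
    rw [sum_single]
    refine (le_abs_self _).trans ?_
    rw [abs_mul, hb, one_mul]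
    exact abs_quad_le hy i
  constructor
  · intro x hx
    rw [mem_union] at hx
    rcases hx with hx | hx
    · obtain ⟨i, b, rfl⟩ := mem_ax.1 hx
      have : ∀ k, (Pi.single i (if b then (1 : ℝ) else -1) : ι → ℝ) k ^ 2 =
          (Pi.single i (if b then (1 : ℝ) else -1) : ι → ℝ) k * (Pi.single i (if b then (1 : ℝ) else -1) : ι → ℝ) k :=
        fun k => sq _
      rw [Finset.sum_congr rfl fun k _ => this k, sum_single, Pi.single_eq_same]
      cases b <;> norm_num
    · obtain ⟨q, hq, S, hS, rfl⟩ := mem_quad.1 hx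
      exact unit_vec (hQ.1 q hq) hS
  · intro x hx y hy hne
    rw [mem_union] at hx hy
    rcases hx with hx | hx
    · rcases hy with hy | hy
      · obtain ⟨i, b, rfl⟩ := mem_ax.1 hx
        obtain ⟨j, c, rfl⟩ := mem_ax.1 hy
        rw [sum_single]
        by_cases hij : i = j
        · subst hij
          rw [Pi.single_eq_same]
          have hbc : b ≠ c := fun h => hne (by rw [h])
          cases b <;> cases c <;> first | exact absurd rfl hbc | norm_num
        · rw [Pi.single_eq_of_ne hij, mul_zero]
          norm_num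
      · exact mixed x hx y hy
    · rcases hy with hy | hy
      · have := mixed y hy x hx
        rw [Finset.sum_congr rfl fun i _ => mul_comm (x i) (y i)]
        exact this
      · exact sep_quad hQ hx hy hne

theorem refl {Q : Finset (Finset ι)} : ReflInv (ax ∪ quad Q : Finset (ι → ℝ)) := by
  intro x hx i
  rw [mem_union] at hx ⊢
  rcases hx with hx | hx
  · left
    obtain ⟨j, b, rfl⟩ := mem_ax.1 hx
    by_cases hij : i = j
    · subst hij
      rw [mem_ax]
      refine ⟨i, !b, ?_⟩
      funext k
      by_cases hk : k = i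
      · subst hk
        rw [Function.update_self, Pi.single_eq_same, Pi.single_eq_same]
        cases b <;> norm_num
      · rw [Function.update_of_ne hk, Pi.single_eq_of_ne hk, Pi.single_eq_of_ne hk]
    · rw [Pi.single_eq_of_ne hij, neg_zero]
      have : Function.update (Pi.single j (if b then (1 : ℝ) else -1) : ι → ℝ) i 0 =
          Pi.single j (if b then (1 : ℝ) else -1) := by
        funext k
        by_cases hk : k = i
        · subst hk
          rw [Function.update_self, Pi.single_eq_of_ne hij]
        · rw [Function.update_of_ne hk]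
      rw [this]
      exact mem_ax.2 ⟨j, b, rfl⟩
  · right
    obtain ⟨q, hq, S, hS, rfl⟩ := mem_quad.1 hx
    rw [mem_quad]
    by_cases hi : i ∈ q
    · by_cases hiS : i ∈ S
      · refine ⟨q, hq, S.erase i, (Finset.erase_subset _ _).trans hS, ?_⟩
        funext k
        by_cases hk : k = i
        · subst hk
          rw [Function.update_self]
          simp [vec, hiS, hi]
        · rw [Function.update_of_ne hk]
          simp [vec, hk]
      · refine ⟨q, hq, insert i S, Finset.insert_subset hi hS, ?_⟩
        funext k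
        by_cases hk : k = i
        · subst hk
          rw [Function.update_self]
          simp [vec, hiS, hi]
        · rw [Function.update_of_ne hk]
          simp [vec, hk]
    · refine ⟨q, hq, S, hS, ?_⟩
      have hiS : i ∉ S := fun h => hi (hS h)
      have h0 : vec q S i = 0 := by
        simp [vec, hi, hiS]
      funext k
      by_cases hk : k = i
      · subst hk
        rw [Function.update_self, h0, neg_zero]
      · rw [Function.update_of_ne hk]

theorem card_ax : (ax : Finset (ι → ℝ)).card = 2 * Fintype.card ι := by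
  unfold ax
  rw [Finset.card_image_of_injective, Finset.card_univ, Fintype.card_prod, Fintype.card_bool, mul_comm]
  rintro ⟨i, b⟩ ⟨j, c⟩ h
  simp only at h
  have h1 := congrFun h i
  rw [Pi.single_eq_same] at h1
  by_cases hij : i = j
  · subst hij
    rw [Pi.single_eq_same] at h1
    cases b <;> cases c <;> first | rfl | (norm_num at h1)
  · rw [Pi.single_eq_of_ne hij] at h1
    cases b <;> norm_num at h1

theorem card_quad {Q : Finset (Finset ι)} (hQ : SQS Q) : (quad Q).card = 16 * Q.card := by
  unfold quad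
  rw [Finset.card_biUnion]
  · have : ∀ q ∈ Q, (q.powerset.image (vec q)).card = 16 := by
      intro q hq
      rw [Finset.card_image_of_injOn, Finset.card_powerset, hQ.1 q hq]
      · norm_num
      · intro S hS S' hS' h
        rw [Finset.mem_coe, mem_powerset] at hS hS'
        ext i
        have h1 := congrFun h i
        unfold vec at h1
        by_cases a1 : i ∈ S <;> by_cases a2 : i ∈ S'
        · simp [a1, a2]
        · rw [if_pos a1, if_neg a2, if_pos (hS a1)] at h1
          norm_num at h1
        · rw [if_neg a1, if_pos a2, if_pos (hS' a2)] at h1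
          norm_num at h1
        · simp [a1, a2]
    rw [Finset.sum_congr rfl this, Finset.sum_const, smul_eq_mul, mul_comm]
  · intro q _ q' _ hne
    rw [Function.onFun, Finset.disjoint_left]
    rintro x hx hx'
    obtain ⟨S, hS, rfl⟩ := mem_image.1 hx
    obtain ⟨S', hS', h⟩ := mem_image.1 hx'
    rw [mem_powerset] at hS hS'
    apply hne
    ext i
    have h1 : |vec q S i| = |vec q' S' i| := by rw [h]
    rw [abs_vec hS, abs_vec hS'] at h1
    by_cases a1 : i ∈ q <;> by_cases a2 : i ∈ q'
    · simp [a1, a2]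
    · rw [if_pos a1, if_neg a2] at h1
      norm_num at h1
    · rw [if_neg a1, if_pos a2] at h1
      norm_num at h1
    · simp [a1, a2]

theorem disj {Q : Finset (Finset ι)} : Disjoint (ax : Finset (ι → ℝ)) (quad Q) := by
  rw [Finset.disjoint_left]
  intro x hx hx'
  obtain ⟨i, b, rfl⟩ := mem_ax.1 hx
  have h := abs_quad_le hx' i
  rw [Pi.single_eq_same] at h
  cases b <;> norm_num at h

theorem card_sqs {Q : Finset (Finset ι)} (hQ : SQS Q) : 4 * Q.card = (Fintype.card ι).choose 3 := by
  have h1 : (powersetCard 3 (univ : Finset ι)) = Q.biUnion fun q => powersetCard 3 q := by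
    ext t
    simp only [mem_powersetCard, subset_univ, true_and, mem_biUnion]
    constructor
    · intro h
      obtain ⟨q, ⟨hq, ht⟩, _⟩ := hQ.2 t h
      exact ⟨q, hq, ht, h⟩
    · rintro ⟨q, _, _, h⟩
      exact h
  have h2 := congrArg Finset.card h1
  rw [Finset.card_powersetCard, Finset.card_univ, Finset.card_biUnion] at h2
  · have : ∀ q ∈ Q, (powersetCard 3 q).card = 4 := by
      intro q hq
      rw [Finset.card_powersetCard, hQ.1 q hq]
      rfl
    rw [Finset.sum_congr rfl this, Finset.sum_const, smul_eq_mul] at h2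
    omega
  · intro q hq q' hq' hne
    rw [Function.onFun, Finset.disjoint_left]
    intro t ht ht'
    rw [mem_powersetCard] at ht ht'
    obtain ⟨p, _, hp⟩ := hQ.2 t ht.2
    exact hne ((hp q ⟨hq, ht.1⟩).trans (hp q' ⟨hq', ht'.1⟩).symm)

theorem choose_three {n : ℕ} (hn : 2 ≤ n) :
    6 * ((n.choose 3 : ℕ) : ℝ) = n * ((n : ℝ) - 1) * ((n : ℝ) - 2) := by
  have h := Nat.descFactorial_eq_factorial_mul_choose n 3
  rw [Nat.descFactorial_succ, Nat.descFactorial_succ, Nat.descFactorial_succ, Nat.descFactorial_zero] at h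
  have h2 := congrArg (fun m : ℕ => (m : ℝ)) h
  simp only [Nat.cast_mul, Nat.sub_zero, mul_one] at h2
  rw [Nat.cast_sub hn, Nat.cast_sub (by omega : 1 ≤ n)] at h2
  have h6 : ((Nat.factorial 3 : ℕ) : ℝ) = 6 := by norm_num [Nat.factorial]
  rw [h6] at h2
  push_cast at h2
  linarith

theorem attained {Q : Finset (Finset ι)} (hQ : SQS Q) (hn : 2 ≤ Fintype.card ι) :
    3 * (((ax ∪ quad Q : Finset (ι → ℝ)).card : ℕ) : ℝ) = 6 * Fintype.card ι +
      2 * (Fintype.card ι : ℝ) * ((Fintype.card ι : ℝ) - 1) * ((Fintype.card ι : ℝ) - 2) := by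
  rw [Finset.card_union_of_disjoint disj, card_ax, card_quad hQ]
  have h1 := choose_three hn
  rw [← card_sqs hQ] at h1
  push_cast at h1 ⊢
  linarith

/-- The boolean quadruple system. -/
theorem boolean {V : Type*} [Fintype V] [DecidableEq V] [AddCommGroup V] (h2 : ∀ x : V, x + x = 0) :
    SQS ((powersetCard 4 (univ : Finset V)).filter fun q => ∑ i ∈ q, i = 0) := by
  constructor
  · intro q hq
    rw [mem_filter, mem_powersetCard] at hq
    exact hq.1.2
  · intro t ht
    set s := ∑ i ∈ t, i with hs
    have hst : s ∉ t := by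
      intro hmem
      have h1 : ∑ i ∈ t.erase s, i = 0 := by
        have h3 := Finset.add_sum_erase t (fun i => i) hmem
        have h4 : s + ∑ i ∈ t.erase s, i = s := h3
        exact add_eq_left.1 h4
      have h3 : (t.erase s).card = 2 := by rw [Finset.card_erase_of_mem hmem, ht]
      obtain ⟨a, b, hab, he⟩ := Finset.card_eq_two.1 h3
      rw [he, Finset.sum_pair hab] at h1
      apply hab
      have h5 : a + b + b = b := by rw [h1, zero_add]
      rw [add_assoc, h2, add_zero] at h5
      exact h5
    refine ⟨insert s t, ⟨?_, Finset.subset_insert _ _⟩, ?_⟩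
    · rw [mem_filter, mem_powersetCard]
      refine ⟨⟨Finset.subset_univ _, by rw [Finset.card_insert_of_notMem hst, ht]⟩, ?_⟩
      rw [Finset.sum_insert hst, ← hs, h2]
    · rintro q ⟨hq, htq⟩
      rw [mem_filter, mem_powersetCard] at hq
      have h3 : (q \ t).card = 1 := by
        rw [Finset.card_sdiff_of_subset htq, hq.1.2, ht]
      obtain ⟨e, he⟩ := Finset.card_eq_one.1 h3
      have h4 : ∑ i ∈ q \ t, i + ∑ i ∈ t, i = ∑ i ∈ q, i := Finset.sum_sdiff htq
      rw [he, Finset.sum_singleton, hq.2, ← hs] at h4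
      have h5 : e = s := by
        have h6 : e + s + s = s := by rw [h4, zero_add]
        rw [add_assoc, h2, add_zero] at h6
        exact h6
      rw [← Finset.sdiff_union_of_subset htq, he, h5]
      rfl

theorem exists_sqs {k : ℕ} (h : Fintype.card ι = 2 ^ k) : ∃ Q : Finset (Finset ι), SQS Q := by
  have hc : Fintype.card ι = Fintype.card (Fin k → ZMod 2) := by
    rw [h, Fintype.card_fun, ZMod.card, Fintype.card_fin]
  let e : ι ≃ (Fin k → ZMod 2) := Fintype.equivOfCardEq hc
  let _ : AddCommGroup ι := e.addCommGroup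
  refine ⟨_, boolean (V := ι) fun x => ?_⟩
  apply e.injective
  have h1 : e (x + x) = e x + e x := by
    show e (e.symm (e x + e x)) = _
    rw [Equiv.apply_symm_apply]
  have h0 : e (0 : ι) = 0 := by
    show e (e.symm 0) = 0
    rw [Equiv.apply_symm_apply]
  rw [h1, h0]
  funext i
  exact CharTwo.add_self_eq_zero _

end Pool.Agent.X27.Kiss
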