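import Mathlib

/-! # Kissing configurations invariant under the reflections in the coordinate hyperplanes -/

set_option autoImplicit false

namespace Pool.Agent.X27.Kiss

open Finset

variable {ι : Type*} [Fintype ι] [DecidableEq ι]

/-- Unit vectors with pairwise inner products at most `1/2`, that is, with pairwise angles at least
`π/3`. -/
def IsKissing (X : Finset (ι → ℝ)) : Prop :=
  (∀ x ∈ X, ∑ i, x i ^ 2 = 1) ∧ ∀ x ∈ X, ∀ y ∈ X, x ≠ y → ∑ i, x i * y i ≤ 1 / 2

/-- Invariance under the reflections in the coordinate hyperplanes. -/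
def ReflInv (X : Finset (ι → ℝ)) : Prop :=
  ∀ x ∈ X, ∀ i, Function.update x i (-(x i)) ∈ X

/-- The support. -/
noncomputable def sp (x : ι → ℝ) : Finset ι := univ.filter fun i => x i ≠ 0

theorem mem_sp {x : ι → ℝ} {i : ι} : i ∈ sp x ↔ x i ≠ 0 := by simp [sp]

/-- Change the signs on `S`. -/
noncomputable def fl (S : Finset ι) (x : ι → ℝ) : ι → ℝ := fun i => if i ∈ S then -(x i) else x i

theorem fl_mem {X : Finset (ι → ℝ)} (hr : ReflInv X) (S : Finset ι) {x : ι → ℝ} (hx : x ∈ X) :
    fl S x ∈ X := by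
  induction S using Finset.induction_on with
  | empty =>
    have : fl ∅ x = x := by funext i; simp [fl]
    rwa [this]
  | insert a S ha ih =>
    have h := hr _ ih a
    have e : Function.update (fl S x) a (-(fl S x a)) = fl (insert a S) x := by
      funext i
      by_cases hi : i = a
      · subst hi
        simp [fl, ha]
      · simp [fl, Function.update_of_ne hi, hi]
    rwa [e] at h

theorem coord {X : Finset (ι → ℝ)} (hk : IsKissing X) (hr : ReflInv X) {x : ι → ℝ} (hx : x ∈ X)
    {i : ι} (hi : x i ≠ 0) : 1 / 2 ≤ |x i| := by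
  have h1 := hr x hx i
  have hne : x ≠ Function.update x i (-(x i)) := by
    intro h
    have h2 := congrFun h i
    rw [Function.update_self] at h2
    apply hi
    linarith
  have h2 := hk.2 x hx _ h1 hne
  have h3 := hk.1 x hx
  have e : ∑ k, x k * Function.update x i (-(x i)) k = ∑ k, x k ^ 2 - 2 * x i ^ 2 := by
    rw [← Finset.add_sum_erase univ _ (mem_univ i), ← Finset.add_sum_erase univ (fun k => x k ^ 2) (mem_univ i),
      Function.update_self]
    have : ∑ k ∈ univ.erase i, x k * Function.update x i (-(x i)) k = ∑ k ∈ univ.erase i, x k ^ 2 := by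
      refine Finset.sum_congr rfl fun k hk => ?_
      rw [Function.update_of_ne (Finset.ne_of_mem_erase hk), sq]
    rw [this]
    ring
  rw [e, h3] at h2
  have h4 : (1 / 2 : ℝ) ^ 2 ≤ |x i| ^ 2 := by rw [sq_abs]; linarith
  exact le_of_sq_le_sq h4 (abs_nonneg _) |> fun h => h

/-- Vectors with different absolute values. -/
theorem abs_inner {X : Finset (ι → ℝ)} (hk : IsKissing X) (hr : ReflInv X) {x y : ι → ℝ}
    (hx : x ∈ X) (hy : y ∈ X) (hne : (fun i => |x i|) ≠ fun i => |y i|) :
    ∑ i, |x i| * |y i| ≤ 1 / 2 := by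
  set S : Finset ι := univ.filter fun i => x i * y i < 0 with hS
  have hy' := fl_mem hr S hy
  have hne' : x ≠ fl S y := by
    intro h
    apply hne
    funext i
    rw [h]
    unfold fl
    split_ifs <;> simp
  have h := hk.2 x hx _ hy' hne'
  have e : ∀ i, x i * fl S y i = |x i| * |y i| := by
    intro i
    rw [← abs_mul]
    unfold fl
    by_cases hi : x i * y i < 0
    · rw [if_pos (by simp [hS, hi]), abs_of_neg hi]
      ring
    · rw [if_neg (by simp [hS, hi]), abs_of_nonneg (not_lt.1 hi)]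
  rwa [Finset.sum_congr rfl fun i _ => e i] at h

/-- The vectors with given absolute values. -/
theorem fibre (X : Finset (ι → ℝ)) (v : ι → ℝ) :
    (X.filter fun y => (fun i => |y i|) = fun i => |v i|).card ≤ 2 ^ (sp v).card := by
  rw [← Finset.card_powerset]
  refine Finset.card_le_card_of_injOn (fun y => (sp v).filter fun i => y i < 0) ?_ ?_
  · intro y _
    simp only [Finset.coe_powerset, Set.mem_preimage, Set.mem_powerset_iff, Finset.coe_subset]
    exact Finset.filter_subset _ _
  · intro y hy z hz h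
    simp only [Finset.coe_filter, Set.mem_setOf_eq] at hy hz h
    funext i
    have h1 : |y i| = |v i| := congrFun hy.2 i
    have h2 : |z i| = |v i| := congrFun hz.2 i
    by_cases hi : v i = 0
    · rw [hi, abs_zero, abs_eq_zero] at h1 h2
      rw [h1, h2]
    · have h3 : (y i < 0) ↔ (z i < 0) := by
        have := Finset.ext_iff.1 h i
        simpa [mem_sp, hi] using this
      by_cases hn : y i < 0
      · rw [abs_of_neg hn] at h1
        rw [abs_of_neg (h3.1 hn)] at h2
        linarith
      · rw [abs_of_nonneg (not_lt.1 hn)] at h1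
        rw [abs_of_nonneg (not_lt.1 fun h => hn (h3.2 h))] at h2
        linarith

theorem sum_ge_card {x : ι → ℝ} (hx : ∀ i, x i ≠ 0 → 1 / 2 ≤ |x i|) (A : Finset ι) (hA : A ⊆ sp x) :
    (A.card : ℝ) / 4 ≤ ∑ i ∈ A, x i ^ 2 := by
  have : ∀ i ∈ A, (1 : ℝ) / 4 ≤ x i ^ 2 := by
    intro i hi
    have h := hx i (mem_sp.1 (hA hi))
    rw [← sq_abs]
    nlinarith
  calc (A.card : ℝ) / 4 = ∑ _i ∈ A, (1 : ℝ) / 4 := by rw [Finset.sum_const, nsmul_eq_mul]; ring
    _ ≤ _ := Finset.sum_le_sum this

theorem sum_sp (x : ι → ℝ) : ∑ i ∈ sp x, x i ^ 2 = ∑ i, x i ^ 2 := by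
  refine Finset.sum_subset (Finset.subset_univ _) fun i _ hi => ?_
  rw [mem_sp, not_not] at hi
  rw [hi]
  norm_num

theorem card_sp {X : Finset (ι → ℝ)} (hk : IsKissing X) (hr : ReflInv X) {x : ι → ℝ} (hx : x ∈ X) :
    1 ≤ (sp x).card ∧ (sp x).card ≤ 4 := by
  have h1 := hk.1 x hx
  rw [← sum_sp] at h1
  constructor
  · rw [Nat.one_le_iff_ne_zero, Ne, Finset.card_eq_zero]
    intro h
    rw [h, Finset.sum_empty] at h1
    norm_num at h1
  · have h2 := sum_ge_card (fun i hi => coord hk hr hx hi) (sp x) (Finset.Subset.refl _)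
    rw [h1] at h2
    have : ((sp x).card : ℝ) ≤ 4 := by linarith
    exact_mod_cast this

/-- If the support has four elements, all entries are `±1/2`. -/
theorem four {X : Finset (ι → ℝ)} (hk : IsKissing X) (hr : ReflInv X) {x : ι → ℝ} (hx : x ∈ X)
    (h4 : (sp x).card = 4) {i : ι} (hi : x i ≠ 0) : |x i| = 1 / 2 := by
  have h1 := hk.1 x hx
  rw [← sum_sp, ← Finset.add_sum_erase (sp x) _ (mem_sp.2 hi)] at h1
  have h2 := sum_ge_card (fun i hi => coord hk hr hx hi) ((sp x).erase i) (Finset.erase_subset _ _)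
  rw [Finset.card_erase_of_mem (mem_sp.2 hi), h4] at h2
  have h3 := coord hk hr hx hi
  have h5 : |x i| ^ 2 ≤ 1 / 4 := by rw [sq_abs]; norm_num at h2; linarith
  nlinarith

end Pool.Agent.X27.Kiss
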